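import Pool.Agent.Lib.MP_7ae50b_co.AsMain

set_option autoImplicit false

namespace Pool.Agent.Results.MP_7ae50b_co.Asymptotic

/-- For every `n` there is `N` such that for all `v ≥ N`: if the list `L` of lengths satisfies the
divisor condition and its sublist `L₀` satisfies it with the factor `n / (n + 1)`, then some
Hamiltonian path of `K_v` has all lengths of `L₀` and misses at most `v / (n + 1)` entries of `L`. -/
theorem result : ∀ n : ℕ, ∃ N : ℕ, ∀ (v : ℕ) (L L₀ : Multiset ℕ), N ≤ v →
    (∀ x ∈ L, 1 ≤ x ∧ x ≤ v / 2) →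
    (∀ d : ℕ, d ∣ v → Multiset.card (L.filter fun x => d ∣ x) ≤ v - d) → L₀ ≤ L →
    (∀ d : ℕ, d ∣ v → (n + 1) * Multiset.card (L₀.filter fun x => d ∣ x) ≤ n * (v - d)) →
    ∃ P : List ℕ, P.Perm (List.range v) ∧
      L₀ ≤ Multiset.ofList
        (List.zipWith (fun a b => min (a - b + (b - a)) (v - (a - b + (b - a)))) P P.tail) ∧
      (n + 1) * Multiset.card (L - Multiset.ofList
        (List.zipWith (fun a b => min (a - b + (b - a)) (v - (a - b + (b - a)))) P P.tail)) ≤ v :=
  Pool.Agent.Lib.MP_7ae50b_co.ML.as_main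

end Pool.Agent.Results.MP_7ae50b_co.Asymptotic
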