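import Pool.Agent.Lib.MP_7ae50b_co.FewUni

set_option autoImplicit false

namespace Pool.Agent.Results.MP_7ae50b_co.FewLengths

open Pool.Agent.BHR Pool.Agent.BHR.Few

/-- For every `k` there is `N` such that for all `v`, `m` and `u` coprime to `v`, a list `L` of
`v - 1` lengths with at most `k` distinct values is realized by a Hamiltonian path of `K_v` as soon
as every value occurring more than `m` times is congruent to `± u y` modulo `v` with `y ≤ m`, and
for each prime `q ∣ v` at least `N (m + 1)` entries of `L` are not divisible by `q`. -/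
theorem result : ∀ k : ℕ, ∃ N : ℕ, ∀ (v m u : ℕ) (L : Multiset ℕ), 2 ≤ v → Nat.Coprime u v →
    Multiset.card L = v - 1 → (∀ x ∈ L, 1 ≤ x ∧ x ≤ v / 2) → L.toFinset.card ≤ k →
    (∀ x ∈ L, m < L.count x → ∃ y ≤ m, u * y ≡ x [MOD v] ∨ u * y + x ≡ 0 [MOD v]) →
    (∀ q : ℕ, q.Prime → q ∣ v →
      N * (m + 1) ≤ Multiset.card (Multiset.filter (fun x => ¬ q ∣ x) L)) →
    ∃ P : List ℕ, P.Perm (List.range v) ∧
      Multiset.ofList
        (List.zipWith (fun a b => min (a - b + (b - a)) (v - (a - b + (b - a)))) P P.tail) = L :=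
  uni

/-- The case `m = v / Q` (Dirichlet): arbitrary values, when all prime factors of `v` are large. -/
theorem large_primes (k n : ℕ) : ∃ N : ℕ, ∀ (v : ℕ) (L : Multiset ℕ), 2 ≤ v →
    Multiset.card L = v - 1 → (∀ x ∈ L, 1 ≤ x ∧ x ≤ v / 2) → L.toFinset.card ≤ k →
    (∀ q : ℕ, q.Prime → q ∣ v →
      N ≤ q ∧ v ≤ n * Multiset.card (Multiset.filter (fun x => ¬ q ∣ x) L)) →
    ∃ P : List ℕ, P.Perm (List.range v) ∧
      Multiset.ofList
        (List.zipWith (fun a b => min (a - b + (b - a)) (v - (a - b + (b - a)))) P P.tail) = L := by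
  obtain ⟨N, hN⟩ := result k
  obtain ⟨Q, hQ⟩ : ∃ Q, Q = 2 * (n * N) + 1 := ⟨_, rfl⟩
  refine ⟨Q ^ k + Q, fun v L hv h1 h2 h3 h4 => ?_⟩
  obtain ⟨t, t1, t2, t3⟩ := dirichlet (v := v) (Q := Q) (by omega) (by omega) L.toFinset
  have t4 : Q ^ L.toFinset.card ≤ Q ^ k := Nat.pow_le_pow_right (by omega) h3
  have t5 : Nat.Coprime t v := Nat.coprime_of_dvd fun p hp p1 p2 => by
    have := (h4 p hp p2).1
    have := Nat.le_of_dvd t1 p1
    omega
  obtain ⟨a, b, hab⟩ := Nat.isCoprime_iff_coprime.2 t5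
  obtain ⟨u, hu⟩ := Int.eq_ofNat_of_zero_le (Int.emod_nonneg a (b := v) (by omega))
  have e : (u : ℤ) * t + (b + a / v * t) * v = 1 := by
    rw [← hu, ← hab, Int.emod_def]
    ring
  refine hN v (v / Q) u L hv (Nat.isCoprime_iff_coprime.1 ⟨t, _, by rw [mul_comm]; exact e⟩) h1 h2 h3
    (fun x hx _ => ⟨nrm v (t * x), ?_, ?_⟩) fun q hq hd => ?_
  · rw [Nat.le_div_iff_mul_le (by omega), mul_comm]
    exact t3 x (Multiset.mem_toFinset.2 hx)
  · rcases nrm_cases (v := v) (by omega) (t * x) with ⟨c, h⟩ | ⟨c, h⟩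
    · refine Or.inl (Nat.modEq_iff_dvd.2 ⟨x * (b + a / v * t) + u * c, ?_⟩)
      push_cast
      linear_combination (u : ℤ) * h - x * e
    · refine Or.inr (Nat.modEq_iff_dvd.2 ⟨-(x * (b + a / v * t) + u * c), ?_⟩)
      push_cast
      linear_combination -(u : ℤ) * h + x * e
  · obtain ⟨q1, q2⟩ := h4 q hq hd
    have q3 := Nat.le_of_dvd (by omega) hd
    have q4 := Nat.mul_div_le v Q
    have q5 : n * (N * (v / Q + 1)) ≤ v := by
      generalize v / Q = z at q4
      have : Q ≤ v := le_trans (Nat.le_add_left _ _) (q1.trans q3)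
      subst hQ
      nlinarith
    exact Nat.le_of_mul_le_mul_left (q5.trans q2) (Nat.pos_of_ne_zero fun h => by
      rw [h, zero_mul] at q2
      omega)

/-- The case of fixed `m`: bounded lengths up to a unit, `k` arbitrary exceptions. -/
theorem bounded (m k : ℕ) : ∃ N : ℕ, ∀ (v : ℕ) (L : Multiset ℕ) (u : ℕ), 2 ≤ v →
    Nat.Coprime u v → Multiset.card L = v - 1 → (∀ x ∈ L, 1 ≤ x ∧ x ≤ v / 2) →
    Multiset.card (Multiset.filter
      (fun x => ¬ ∃ y ≤ m, u * y ≡ x [MOD v] ∨ u * y + x ≡ 0 [MOD v]) L) ≤ k →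
    (∀ p : ℕ, p.Prime → p ∣ v → N ≤ Multiset.card (Multiset.filter (fun x => ¬ p ∣ x) L)) →
    ∃ P : List ℕ, P.Perm (List.range v) ∧
      Multiset.ofList
        (List.zipWith (fun a b => min (a - b + (b - a)) (v - (a - b + (b - a)))) P P.tail) = L := by
  obtain ⟨N, hN⟩ := result (m + 1 + k)
  refine ⟨N * (m + k + 1), fun v L u hv hu h1 h2 h3 h4 => hN v (m + k) u L hv hu h1 h2 ?_
    (fun x hx hc => ?_) h4⟩
  · refine le_trans (Finset.card_le_card (t := (Finset.range (m + 1)).image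
      (fun y : ℕ => nrm v ((u : ℤ) * y)) ∪ (L.filter fun x => ¬ ∃ y ≤ m, u * y ≡ x [MOD v] ∨
        u * y + x ≡ 0 [MOD v]).toFinset) fun x hx => ?_) ((Finset.card_union_le _ _).trans
      (add_le_add (Finset.card_image_le.trans (Finset.card_range _).le)
        ((Multiset.toFinset_card_le _).trans h3)))
    rw [Multiset.mem_toFinset] at hx
    by_cases h : ∃ y ≤ m, u * y ≡ x [MOD v] ∨ u * y + x ≡ 0 [MOD v]
    · obtain ⟨y, y1, y2⟩ := h
      exact Finset.mem_union_left _ (Finset.mem_image.2 ⟨y, Finset.mem_range.2 (by omega),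
        (nrm_of_mod (by omega) (by have := h2 x hx; omega) y2).symm⟩)
    · exact Finset.mem_union_right _ (Multiset.mem_toFinset.2 (Multiset.mem_filter.2 ⟨hx, h⟩))
  · by_contra h
    have h5 := (Multiset.count_le_card x _).trans h3
    rw [Multiset.count_filter_of_pos fun ⟨y, y1, y2⟩ => h ⟨y, by omega, y2⟩] at h5
    omega

/-- The case `u = 1`: at most `k` values, all at most `m` and coprime to `v > N (m + 1)`. -/
theorem coprime (k : ℕ) : ∃ N : ℕ, ∀ (v m : ℕ) (L : Multiset ℕ), N * (m + 1) < v → 2 ≤ v →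
    Multiset.card L = v - 1 → (∀ x ∈ L, 1 ≤ x ∧ x ≤ v / 2) → L.toFinset.card ≤ k →
    (∀ x ∈ L, x ≤ m ∧ Nat.Coprime x v) →
    ∃ P : List ℕ, P.Perm (List.range v) ∧
      Multiset.ofList
        (List.zipWith (fun a b => min (a - b + (b - a)) (v - (a - b + (b - a)))) P P.tail) = L := by
  obtain ⟨N, hN⟩ := result k
  refine ⟨N, fun v m L h0 hv h1 h2 h3 h4 => hN v m 1 L hv (Nat.coprime_one_left v) h1 h2 h3
    (fun x hx _ => ⟨x, (h4 x hx).1, Or.inl (by rw [one_mul])⟩) fun q hq hd => ?_⟩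
  rw [Multiset.filter_eq_self.2 fun x hx => (mt (Nat.eq_one_of_dvd_coprimes (h4 x hx).2 · hd)
    hq.one_lt.ne' : ¬ q ∣ x)]
  omega

end Pool.Agent.Results.MP_7ae50b_co.FewLengths
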