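import Pool.Agent.Lib.MP_7ae50b_co.MLMain

set_option autoImplicit false

namespace Pool.Agent.Results.MP_7ae50b_co.ManyLengths

/-- For every `n` there is `N` such that for odd `v ≥ N` a list `L` of `v - 1` lengths is realized
by a Hamiltonian path of `K_v` as soon as, for every prime `q ∣ v`, at least `v / n` different
lengths in `L` are not divisible by `q`, and every length `x` that occurs at least `v / N` times
has `gcd x v ≤ v / N`. -/
theorem result : ∀ n : ℕ, ∃ N : ℕ, ∀ (v : ℕ) (L : Multiset ℕ), N ≤ v → Odd v →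
    Multiset.card L = v - 1 → (∀ x ∈ L, 1 ≤ x ∧ x ≤ v / 2) →
    (∀ q : ℕ, q.Prime → q ∣ v → v ≤ n * (L.toFinset.filter fun x => ¬ q ∣ x).card) →
    (∀ x ∈ L, v ≤ N * L.count x → N * Nat.gcd x v ≤ v) →
    ∃ P : List ℕ, P.Perm (List.range v) ∧
      Multiset.ofList
        (List.zipWith (fun a b => min (a - b + (b - a)) (v - (a - b + (b - a)))) P P.tail) = L :=
  Pool.Agent.Lib.MP_7ae50b_co.ML.many

end Pool.Agent.Results.MP_7ae50b_co.ManyLengths
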