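import Pool.Agent.Lib.MP_7ae50b_co.On.Main

set_option autoImplicit false

namespace Pool.Agent.Results.MP_7ae50b_co.ManyOnes

/-- A list `L` of `v - 1` lengths, all at most `m`, with at least `4 m - 3` entries equal to `1` is
realized by a Hamiltonian path of `K_v`. -/
theorem result : ∀ (v m : ℕ) (L : Multiset ℕ), 1 ≤ v → Multiset.card L = v - 1 →
    (∀ x ∈ L, 1 ≤ x ∧ x ≤ v / 2) → (∀ x ∈ L, x ≤ m) → 4 * m ≤ L.count 1 + 3 →
    ∃ P : List ℕ, P.Perm (List.range v) ∧
      Multiset.ofList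
        (List.zipWith (fun a b => min (a - b + (b - a)) (v - (a - b + (b - a)))) P P.tail) = L :=
  Pool.Agent.Lib.MP_7ae50b_co.On.main

end Pool.Agent.Results.MP_7ae50b_co.ManyOnes
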